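import Mathlib

set_option autoImplicit false

/-!
# Orbit closures of sparse sets of integers

`spread k` is empty for `k = 0`, and for `k ≥ 1` it is the set of all sums of `k - 1` distinct powers of `3`.
The orbit closure of `spread k` under translations consists of the translates of `spread l`, `l ≤ k`.
-/

namespace Pool.Agent.Q183.Lev

open Finset

/-- the sum of the powers `3 ^ i`, `i ∈ S` -/
def val (S : Finset ℕ) : ℤ := ∑ i ∈ S, 3 ^ i

/-- Empty for `k = 0`; for `k ≥ 1` the set of all sums of `k - 1` distinct powers of `3`. -/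
def spread : ℕ → Set ℤ
  | 0 => ∅
  | k + 1 => {m | ∃ S : Finset ℕ, S.card = k ∧ m = ∑ i ∈ S, 3 ^ i}

theorem mem_spread_succ {k : ℕ} {m : ℤ} : m ∈ spread (k + 1) ↔ ∃ S : Finset ℕ, S.card = k ∧ m = val S := Iff.rfl

theorem val_nonneg (S : Finset ℕ) : 0 ≤ val S := sum_nonneg fun _ _ => by positivity

theorem val_union {S S' : Finset ℕ} (h : Disjoint S S') : val (S ∪ S') = val S + val S' := sum_union h

theorem val_split (S : Finset ℕ) (M : ℕ) : val S = val (S.filter (· < M)) + val (S.filter (fun i => ¬ i < M)) :=
  (sum_filter_add_sum_filter_not S (· < M) _).symm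

theorem card_split (S : Finset ℕ) (M : ℕ) : S.card = (S.filter (· < M)).card + (S.filter (fun i => ¬ i < M)).card :=
  (card_filter_add_card_filter_not (· < M)).symm

theorem val_range (M : ℕ) : 2 * val (range M) = 3 ^ M - 1 := by
  induction M with
  | zero => simp [val]
  | succ M ih =>
    rw [val, sum_range_succ, ← val, mul_add, ih, pow_succ]
    ring

theorem val_mono {S S' : Finset ℕ} (h : S ⊆ S') : val S ≤ val S' :=
  sum_le_sum_of_subset_of_nonneg h fun _ _ _ => by positivity

theorem val_low (S : Finset ℕ) (M : ℕ) : 2 * val (S.filter (· < M)) ≤ 3 ^ M - 1 := by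
  rw [← val_range M]
  have : val (S.filter (· < M)) ≤ val (range M) := val_mono fun i hi => by
    rw [mem_filter] at hi
    exact mem_range.mpr hi.2
  linarith

theorem dvd_high (S : Finset ℕ) (M : ℕ) : (3 : ℤ) ^ M ∣ val (S.filter (fun i => ¬ i < M)) := by
  refine dvd_sum fun i hi => ?_
  rw [mem_filter, not_lt] at hi
  exact pow_dvd_pow 3 hi.2

theorem val_inj {S S' : Finset ℕ} (h : val S = val S') : S = S' := by
  have h1 := Finset.geomSum_injective (n := 3) (by norm_num)
  apply h1
  have : ((∑ i ∈ S, 3 ^ i : ℕ) : ℤ) = ((∑ i ∈ S', 3 ^ i : ℕ) : ℤ) := by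
    push_cast
    exact h
  exact_mod_cast this

/-- close sums have the same high digits -/
theorem high_eq {S S' : Finset ℕ} {M : ℕ} (h : 2 * |val S - val S'| < 3 ^ M) :
    S.filter (fun i => ¬ i < M) = S'.filter (fun i => ¬ i < M) := by
  apply val_inj
  have h1 := val_split S M
  have h2 := val_split S' M
  have h3 := val_low S M
  have h4 := val_low S' M
  have h5 := val_nonneg (S.filter (· < M))
  have h6 := val_nonneg (S'.filter (· < M))
  have h7 : (3 : ℤ) ^ M ∣ val (S.filter (fun i => ¬ i < M)) - val (S'.filter (fun i => ¬ i < M)) :=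
    dvd_sub (dvd_high S M) (dvd_high S' M)
  have h8 : |val (S.filter (fun i => ¬ i < M)) - val (S'.filter (fun i => ¬ i < M))| < 3 ^ M := by
    have a1 := abs_lt.mp (show |val S - val S'| < 3 ^ M by
      have := abs_nonneg (val S - val S'); linarith)
    have b1 := le_abs_self (val S - val S')
    have b2 := neg_abs_le (val S - val S')
    rw [abs_lt]
    constructor <;> linarith
  have h9 := Int.eq_zero_of_abs_lt_dvd h7 h8
  linarith

theorem shift_iff {S' : Finset ℕ} {N l : ℕ} {m : ℤ} (hS : ∀ i ∈ S', ¬ i < N) (hm : 2 * |m| < 3 ^ N) :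
    val S' + m ∈ spread (l + S'.card + 1) ↔ m ∈ spread (l + 1) := by
  rw [mem_spread_succ, mem_spread_succ]
  have hS' : S'.filter (fun i => ¬ i < N) = S' := filter_true_of_mem hS
  constructor
  · rintro ⟨S, hc, hv⟩
    have h1 : S.filter (fun i => ¬ i < N) = S' := by
      rw [← hS']
      refine high_eq ?_
      have : val S - val S' = m := by linarith
      rw [this]; exact hm
    have h2 := val_split S N
    have h3 := card_split S N
    rw [h1] at h2 h3
    exact ⟨S.filter (· < N), by omega, by linarith⟩
  · rintro ⟨S, hc, hv⟩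
    have h1 : S.filter (fun i => ¬ i < N) = (∅ : Finset ℕ).filter (fun i => ¬ i < N) := by
      refine high_eq ?_
      have : val S - val ∅ = m := by simp [val] at hv ⊢; linarith
      rw [this]; exact hm
    rw [filter_empty] at h1
    have hd : Disjoint S' S := by
      rw [disjoint_left]
      intro i hi hi'
      have : i ∈ S.filter (fun i => ¬ i < N) := mem_filter.mpr ⟨hi', hS i hi⟩
      rw [h1] at this
      simp at this
    refine ⟨S' ∪ S, ?_, ?_⟩
    · rw [card_union_of_disjoint hd, hc, add_comm]
    · rw [val_union hd, hv]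

/-- translates of `A` -/
def tr (j : ℤ) (A : Set ℤ) : Set ℤ := {i | j + i ∈ A}

/-- the orbit closure of `A` under translations -/
def CL (A : Set ℤ) : Set (Set ℤ) := {Z | ∀ r : ℕ, ∃ j : ℤ, ∀ i : ℤ, |i| ≤ r → (i ∈ Z ↔ j + i ∈ A)}

theorem tr_tr (i j : ℤ) (A : Set ℤ) : tr i (tr j A) = tr (j + i) A := by
  ext m; simp [tr, add_assoc]

theorem tr_zero (A : Set ℤ) : tr 0 A = A := by
  ext m; simp [tr]

theorem self_mem_CL (A : Set ℤ) : A ∈ CL A := fun r => ⟨0, fun i _ => by simp⟩

theorem CL_tr (j : ℤ) (A : Set ℤ) : CL (tr j A) = CL A := by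
  ext Z
  constructor
  · intro h r
    obtain ⟨k, hk⟩ := h r
    exact ⟨j + k, fun i hi => by rw [hk i hi, tr, Set.mem_ofPred_eq, add_assoc]⟩
  · intro h r
    obtain ⟨k, hk⟩ := h r
    refine ⟨k - j, fun i hi => ?_⟩
    rw [hk i hi, tr, Set.mem_ofPred_eq]
    have : j + (k - j + i) = k + i := by ring
    rw [this]

theorem exists_pow_gt (m : ℤ) : ∃ N : ℕ, m < 3 ^ N := by
  refine ⟨m.toNat, ?_⟩
  have h1 : m.toNat < 3 ^ m.toNat := Nat.lt_pow_self (by norm_num)
  have h2 : m ≤ m.toNat := Int.self_le_toNat m
  have h3 : ((m.toNat : ℕ) : ℤ) < ((3 ^ m.toNat : ℕ) : ℤ) := by exact_mod_cast h1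
  push_cast at h3
  linarith

theorem neg_not_mem_spread (k : ℕ) {m : ℤ} (hm : m < 0) : m ∉ spread k := by
  cases k with
  | zero => simp [spread]
  | succ k =>
    rintro ⟨S, _, hv⟩
    have := val_nonneg S
    rw [val] at this
    omega

open Filter in
theorem CL_spread (k : ℕ) : CL (spread k) = {Z | ∃ l ≤ k, ∃ j : ℤ, Z = tr j (spread l)} := by
  ext Z
  simp only [Set.mem_ofPred_eq]
  constructor
  · intro hZ
    by_cases hne : Z = ∅
    · refine ⟨0, Nat.zero_le k, 0, ?_⟩
      rw [hne]; ext i; simp [tr, spread]
    obtain ⟨c, hc⟩ := Set.nonempty_iff_ne_empty.mpr hne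
    cases k with
    | zero =>
      obtain ⟨j, hj⟩ := hZ c.natAbs
      have := (hj c (by simp)).mp hc
      simp [spread] at this
    | succ k =>
      have h1 : ∀ r : ℕ, ∃ (j : ℤ) (S : Finset ℕ), S.card = k ∧ j + c = val S ∧
          ∀ i : ℤ, |i| ≤ ((r + c.natAbs : ℕ) : ℤ) → (i ∈ Z ↔ j + i ∈ spread (k + 1)) := by
        intro r
        obtain ⟨j, hj⟩ := hZ (r + c.natAbs)
        have h2 := (hj c (by push_cast; omega)).mp hc
        obtain ⟨S, hS, hv⟩ := h2
        exact ⟨j, S, hS, hv, hj⟩
      choose j S hcard hval hwin using h1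
      set U : Ultrafilter ℕ := hyperfilter ℕ with hU
      set E : Set ℕ := {m | ∀ᶠ r in U, m ∈ S r} with hE
      have hnot : ∀ m, m ∉ E → ∀ᶠ r in U, m ∉ S r := by
        intro m hm
        exact Ultrafilter.eventually_not.mpr hm
      have hfin : E.Finite := by
        by_contra hinf
        obtain ⟨F, hF, hFc⟩ := Set.Infinite.exists_subset_card_eq hinf (k + 1)
        have h2 : ∀ᶠ r in U, ∀ m ∈ F, m ∈ S r := by
          rw [eventually_all_finset]
          intro m hm
          exact hF hm
        obtain ⟨r, hr⟩ := h2.exists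
        have h3 := card_le_card (s := F) (t := S r) fun m hm => hr m hm
        rw [hcard, hFc] at h3
        omega
      set F := hfin.toFinset with hF
      have hFS : ∀ᶠ r in U, ∀ m ∈ F, m ∈ S r := by
        rw [eventually_all_finset]
        intro m hm
        exact hfin.mem_toFinset.mp hm
      have hl : F.card ≤ k := by
        obtain ⟨r, hr⟩ := hFS.exists
        have h3 := card_le_card (s := F) (t := S r) fun m hm => hr m hm
        rw [hcard] at h3
        exact h3
      refine ⟨F.card + 1, by omega, val F - c, ?_⟩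
      ext i
      obtain ⟨M₁, hM₁⟩ := exists_pow_gt (2 * |val F + (i - c)|)
      obtain ⟨M₂, hM₂⟩ := F.exists_nat_subset_range
      set M := max M₁ M₂ with hM
      have hM1 : 2 * |val F + (i - c)| < 3 ^ M :=
        lt_of_lt_of_le hM₁ (pow_le_pow_right₀ (by norm_num) (le_max_left _ _))
      have e1 : ∀ᶠ r in U, ∀ m ∈ range M, (m ∈ S r ↔ m ∈ F) := by
        rw [eventually_all_finset]
        intro m _
        by_cases hm : m ∈ E
        · have : ∀ᶠ r in U, m ∈ S r := hm
          filter_upwards [this] with r hr
          exact ⟨fun _ => hfin.mem_toFinset.mpr hm, fun _ => hr⟩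
        · filter_upwards [hnot m hm] with r hr
          exact ⟨fun h => absurd h hr, fun h => absurd (hfin.mem_toFinset.mp h) hm⟩
      have e2 : ∀ᶠ r in U, i.natAbs ≤ r := by
        have : ∀ᶠ r in (cofinite : Filter ℕ), i.natAbs ≤ r := by
          rw [Nat.cofinite_eq_atTop]
          exact eventually_ge_atTop _
        exact hyperfilter_le_cofinite this
      obtain ⟨r, hr1, hr2⟩ := (e1.and e2).exists
      have hlow : (S r).filter (· < M) = F := by
        ext m
        rw [mem_filter]
        constructor
        · rintro ⟨h1, h2⟩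
          exact (hr1 m (mem_range.mpr h2)).mp h1
        · intro h
          have h2 : m < M := lt_of_lt_of_le (mem_range.mp (hM₂ h)) (le_max_right _ _)
          exact ⟨(hr1 m (mem_range.mpr h2)).mpr h, h2⟩
      have h3 := val_split (S r) M
      have h4 := card_split (S r) M
      rw [hlow] at h3 h4
      rw [hcard] at h4
      have h5 := hwin r i (by push_cast; have := Int.natCast_natAbs i; have := abs_nonneg c; omega)
      rw [h5, tr, Set.mem_ofPred_eq]
      have h6 : j r + i = val ((S r).filter (fun i => ¬ i < M)) + (val F + (i - c)) := by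
        have := hval r
        linarith
      have h7 : val F - c + i = val F + (i - c) := by ring
      rw [h6, h7, h4]
      exact shift_iff (fun i hi => (mem_filter.mp hi).2) hM1
  · rintro ⟨l, hl, j, rfl⟩
    have hmem : spread l ∈ CL (spread k) := by
      cases l with
      | zero =>
        intro r
        refine ⟨-(r + 1 : ℤ), fun i hi => ?_⟩
        have h1 : -(r + 1 : ℤ) + i < 0 := by
          have := abs_le.mp hi
          linarith
        simp only [spread, Set.mem_empty_iff_false, false_iff]
        exact neg_not_mem_spread k h1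
      | succ l =>
        obtain ⟨k', rfl⟩ : ∃ k', k = l + k' + 1 := ⟨k - (l + 1), by omega⟩
        intro r
        obtain ⟨N, hN⟩ := exists_pow_gt (2 * (r : ℤ))
        set S' : Finset ℕ := Finset.Ico N (N + k') with hS'
        have hc : S'.card = k' := by rw [hS', Nat.card_Ico]; omega
        refine ⟨val S', fun i hi => ?_⟩
        have h := shift_iff (S' := S') (N := N) (l := l) (m := i) (fun i hi => by
          rw [hS', mem_Ico] at hi; omega) (by linarith)
        rw [hc] at h
        exact h.symm
    intro r
    obtain ⟨t, ht⟩ := hmem (r + j.natAbs)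
    refine ⟨t + j, fun i hi => ?_⟩
    have h1 := ht (j + i) (by
      push_cast
      have := abs_add_le j i
      linarith)
    rw [tr, Set.mem_ofPred_eq, h1, add_assoc]

theorem val_ge {S : Finset ℕ} {k : ℕ} (h : S.card = k) : val (range k) ≤ val S := by
  induction k generalizing S with
  | zero =>
    rw [range_zero]
    exact (by simp [val] : val ∅ = 0).trans_le (val_nonneg S)
  | succ k ih =>
    have hne : S.Nonempty := by
      rw [← card_pos]; omega
    set m := S.max' hne with hm
    have h1 : m ∈ S := S.max'_mem hne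
    have h2 : k ≤ m := by
      have : S ⊆ range (m + 1) := fun i hi => mem_range.mpr (Nat.lt_succ_of_le (S.le_max' i hi))
      have := card_le_card this
      rw [h, card_range] at this
      omega
    have h3 : (S.erase m).card = k := by rw [card_erase_of_mem h1]; omega
    have h4 := ih h3
    have h5 : val (S.erase m) + 3 ^ m = val S := by
      rw [val, val]; exact sum_erase_add S _ h1
    have h6 : (3 : ℤ) ^ k ≤ 3 ^ m := pow_le_pow_right₀ (by norm_num) h2
    have h7 : val (range (k + 1)) = val (range k) + 3 ^ k := by rw [val, sum_range_succ, ← val]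
    linarith

theorem min_gap {k : ℕ} {m : ℤ} (hm : val (range k) + m ∈ spread (k + 1)) (h : 2 * |m| < 3 ^ k) : m = 0 := by
  obtain ⟨S, hS, hv⟩ := hm
  have h1 : S.filter (fun i => ¬ i < k) = (range k).filter (fun i => ¬ i < k) := by
    refine high_eq ?_
    have e : val S = ∑ i ∈ S, 3 ^ i := rfl
    have : val S - val (range k) = m := by linarith
    rw [this]; exact h
  have h2 : S ⊆ range k := by
    intro i hi
    by_contra hi'
    rw [mem_range] at hi'
    have h3 : i ∈ S.filter (fun i => ¬ i < k) := mem_filter.mpr ⟨hi, hi'⟩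
    rw [h1, mem_filter, mem_range] at h3
    exact h3.2 h3.1
  have h3 : S = range k := eq_of_subset_of_card_le h2 (by rw [card_range, hS])
  rw [h3] at hv
  rw [val] at hv
  linarith

theorem next_mem (k : ℕ) : val (range (k + 1)) + 2 * 3 ^ k ∈ spread (k + 2) := by
  refine ⟨insert (k + 1) (range k), ?_, ?_⟩
  · rw [card_insert_of_notMem (by simp), card_range]
  · rw [sum_insert (by simp), val, sum_range_succ, pow_succ]
    ring

theorem spread_ne_tr {k l : ℕ} (h : l < k) (j : ℤ) : spread k ≠ tr j (spread l) := by
  intro he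
  obtain ⟨k, rfl⟩ : ∃ k', k = k' + 1 := ⟨k - 1, by omega⟩
  have hk0 : val (range k) ∈ spread (k + 1) := ⟨range k, card_range k, rfl⟩
  cases l with
  | zero =>
    rw [he] at hk0
    simp [tr, spread] at hk0
  | succ l =>
    have hl0 : val (range l) ∈ spread (l + 1) := ⟨range l, card_range l, rfl⟩
    obtain ⟨k, rfl⟩ : ∃ k', k = k' + 1 := ⟨k - 1, by omega⟩
    have iff1 : ∀ i, i ∈ spread (k + 1 + 1) ↔ j + i ∈ spread (l + 1) := by
      intro i; rw [he]; rfl
    have h1 : val (range (k + 1)) ≤ val (range l) - j := by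
      have : val (range l) - j ∈ spread (k + 1 + 1) := by
        rw [iff1]; convert hl0 using 1; ring
      obtain ⟨S, hS, hv⟩ := this
      have := val_ge hS
      have e : val S = ∑ i ∈ S, 3 ^ i := rfl
      linarith
    have h2 : val (range l) ≤ j + val (range (k + 1)) := by
      obtain ⟨S, hS, hv⟩ := (iff1 _).mp hk0
      have := val_ge hS
      have e : val S = ∑ i ∈ S, 3 ^ i := rfl
      rw [e] at this
      linarith
    have hj : j = val (range l) - val (range (k + 1)) := by linarith
    cases l with
    | zero =>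
      have h3 := (iff1 _).mp (next_mem k)
      have h4 : j + (val (range (k + 1)) + 2 * 3 ^ k) = val (range 0) + 2 * 3 ^ k := by rw [hj]; ring
      rw [h4] at h3
      obtain ⟨S, hS, hv⟩ := h3
      rw [card_eq_zero] at hS
      subst hS
      simp [val] at hv
    | succ l =>
      have h3 := next_mem l
      have h4 : val (range (k + 1)) + 2 * 3 ^ l ∈ spread (k + 1 + 1) := by
        rw [iff1]
        convert h3 using 1
        rw [hj]; ring
      have h5 := min_gap h4 (by
        rw [abs_of_nonneg (by positivity)]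
        have : (3 : ℤ) ^ (l + 2) ≤ 3 ^ (k + 1) := pow_le_pow_right₀ (by norm_num) (by omega)
        have e : (3 : ℤ) ^ (l + 2) = 9 * 3 ^ l := by ring
        have : (0 : ℤ) < 3 ^ l := by positivity
        linarith)
      have : (0 : ℤ) < 3 ^ l := by positivity
      linarith

end Pool.Agent.Q183.Lev
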