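import Mathlib
import Pool.Agent.Q183.Lev.Seq

set_option autoImplicit false

/-!
# Graph matchbox manifolds: the transversal and the levels

The transversal `X` of the Kenyon-Ghys foliated space of `F_n` is the space of infinite connected induced subtrees of the
Cayley graph which contain `e`; a leaf meets it in the re-rootings of one tree.
-/

namespace Pool.Agent.Q183.Lev

open Set

/-- The Cayley graph of the free group `F_n`: `g` is joined to `g a_i` for every free generator `a_i`. -/
def cayley (n : ℕ) : SimpleGraph (FreeGroup (Fin n)) :=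
  SimpleGraph.fromRel fun g h => ∃ i, h = g * FreeGroup.of i

/-- The space `X`: the infinite connected induced subtrees of the Cayley graph which contain `e`, given by their vertex
sets. -/
@[ext] structure Tree (n : ℕ) where
  verts : Set (FreeGroup (Fin n))
  one_mem : 1 ∈ verts
  infinite : verts.Infinite
  connected : ((cayley n).induce verts).Connected

/-- The balls of radius `r` about `e` in `T` and `T'` coincide (`FreeGroup.norm` is the length of the reduced word). -/
def SameBall {n : ℕ} (r : ℕ) (T T' : Tree n) : Prop :=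
  ∀ g : FreeGroup (Fin n), g.norm ≤ r → (g ∈ T.verts ↔ g ∈ T'.verts)

/-- The closure in `X`: the trees `T` such that for every `r` some `T' ∈ S` has the same ball of radius `r` about `e`. -/
def closureX {n : ℕ} (S : Set (Tree n)) : Set (Tree n) := {T | ∀ r : ℕ, ∃ T' ∈ S, SameBall r T T'}

/-- The intersection of the leaf through `T` with `X`: all re-rootings `g⁻¹ T`, `g` a vertex of `T`. -/
def leaf {n : ℕ} (T : Tree n) : Set (Tree n) := {T' | ∃ g ∈ T.verts, T'.verts = (fun h => g⁻¹ * h) '' T.verts}

/-- `IsLevel k M`: the saturated closed set `M` is at level `k`. Level `0`: every leaf of `M` is dense in `M`. Level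
`k + 1`: the closure of the union of the leaves of `M` which are not dense in `M` is not all of `M`, every such leaf is
at level at most `k` and at least one of them is at level `k`. -/
def IsLevel {n : ℕ} : ℕ → Set (Tree n) → Prop
  | 0 => fun M => ∀ T ∈ M, closureX (leaf T) = M
  | k + 1 => fun M =>
      closureX {T | T ∈ M ∧ closureX (leaf T) ≠ M} ≠ M ∧
      (∀ T ∈ M, closureX (leaf T) ≠ M → ∃ j : Fin (k + 1), IsLevel j (closureX (leaf T))) ∧
      (∃ T ∈ M, closureX (leaf T) ≠ M ∧ IsLevel k (closureX (leaf T)))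

/-! ### Basic facts -/

theorem isLevel_zero {n : ℕ} (M : Set (Tree n)) : IsLevel 0 M ↔ ∀ T ∈ M, closureX (leaf T) = M := by
  rw [IsLevel.eq_def]

theorem isLevel_succ {n : ℕ} (k : ℕ) (M : Set (Tree n)) : IsLevel (k + 1) M ↔
      closureX {T | T ∈ M ∧ closureX (leaf T) ≠ M} ≠ M ∧
      (∀ T ∈ M, closureX (leaf T) ≠ M → ∃ j : Fin (k + 1), IsLevel j (closureX (leaf T))) ∧
      (∃ T ∈ M, closureX (leaf T) ≠ M ∧ IsLevel k (closureX (leaf T))) := by
  rw [IsLevel.eq_def]

theorem SameBall.symm {n r : ℕ} {T T' : Tree n} (h : SameBall r T T') : SameBall r T' T :=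
  fun g hg => (h g hg).symm

theorem SameBall.trans {n r : ℕ} {T T' T'' : Tree n} (h : SameBall r T T') (h' : SameBall r T' T'') :
    SameBall r T T'' :=
  fun g hg => (h g hg).trans (h' g hg)

theorem SameBall.mono {n r s : ℕ} {T T' : Tree n} (h : SameBall r T T') (hs : s ≤ r) : SameBall s T T' :=
  fun g hg => h g (hg.trans hs)

theorem eq_of_sameBall {n : ℕ} {T T' : Tree n} (h : ∀ r, SameBall r T T') : T = T' := by
  ext g
  exact h g.norm g le_rfl

theorem closureX_mono {n : ℕ} {S S' : Set (Tree n)} (h : S ⊆ S') : closureX S ⊆ closureX S' := by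
  intro T hT r
  obtain ⟨T', h1, h2⟩ := hT r
  exact ⟨T', h h1, h2⟩

theorem closureX_idem {n : ℕ} (S : Set (Tree n)) : closureX (closureX S) = closureX S := by
  ext T
  constructor
  · intro hT r
    obtain ⟨T', h1, h2⟩ := hT r
    obtain ⟨T'', h3, h4⟩ := h1 r
    exact ⟨T'', h3, h2.trans h4⟩
  · intro hT r
    exact ⟨T, hT, fun g _ => Iff.rfl⟩

theorem level_unique {n : ℕ} (k : ℕ) : ∀ (l : ℕ) (M : Set (Tree n)), IsLevel k M → IsLevel l M → k = l := by
  induction k using Nat.strong_induction_on with
  | _ k ih =>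
    intro l M hk hl
    cases k with
    | zero =>
      cases l with
      | zero => rfl
      | succ l =>
        rw [isLevel_zero] at hk
        rw [isLevel_succ] at hl
        obtain ⟨_, _, T, hT, hne, _⟩ := hl
        exact absurd (hk T hT) hne
    | succ k =>
      cases l with
      | zero =>
        rw [isLevel_zero] at hl
        rw [isLevel_succ] at hk
        obtain ⟨_, _, T, hT, hne, _⟩ := hk
        exact absurd (hl T hT) hne
      | succ l =>
        rw [isLevel_succ] at hk hl
        obtain ⟨_, h2, T, hT, hne, h3⟩ := hk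
        obtain ⟨_, g2, T', hT', hne', g3⟩ := hl
        obtain ⟨j, hj⟩ := g2 T hT hne
        have e1 := ih k (Nat.lt_succ_self k) j _ h3 hj
        obtain ⟨j', hj'⟩ := h2 T' hT' hne'
        have e2 := ih j' j'.2 l _ hj' g3
        have := j.2
        have := j'.2
        omega

/-! ### Bi-infinite paths -/

variable {n : ℕ} (a b : Fin n)

open Classical in
/-- The letter at position `j`: the generator `b` if `j ∈ A`, the generator `a` otherwise. -/
noncomputable def letter (A : Set ℤ) (j : ℤ) : FreeGroup (Fin n) :=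
  if j ∈ A then FreeGroup.of b else FreeGroup.of a

/-- The vertices of the bi-infinite path through `e` whose `j`-th edge is labelled by the letter at position `j`, for
`j ≥ 0`. -/
noncomputable def fwd (A : Set ℤ) : ℕ → FreeGroup (Fin n)
  | 0 => 1
  | j + 1 => fwd A j * letter a b A j

/-- The vertices with negative index. -/
noncomputable def bwd (A : Set ℤ) : ℕ → FreeGroup (Fin n)
  | 0 => 1
  | j + 1 => bwd A j * (letter a b A (-((j : ℤ) + 1)))⁻¹

/-- The vertices of the bi-infinite path: `vtx 0 = e` and `vtx (j + 1) = vtx j * letter j`. -/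
noncomputable def vtx (A : Set ℤ) : ℤ → FreeGroup (Fin n)
  | Int.ofNat j => fwd a b A j
  | Int.negSucc j => bwd a b A (j + 1)

theorem vtx_zero (A : Set ℤ) : vtx a b A 0 = 1 := rfl

theorem vtx_succ (A : Set ℤ) (j : ℤ) : vtx a b A (j + 1) = vtx a b A j * letter a b A j := by
  obtain ⟨m, rfl | rfl⟩ := j.eq_nat_or_neg
  · rfl
  · cases m with
    | zero => rfl
    | succ m =>
      have e1 : (-((m + 1 : ℕ) : ℤ)) = Int.negSucc m := rfl
      rw [e1]
      have e2 : (Int.negSucc m + 1 : ℤ) = -(m : ℤ) := by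
        rw [Int.negSucc_eq]; ring
      rw [e2]
      have e3 : vtx a b A (Int.negSucc m) = bwd a b A m * (letter a b A (-((m : ℤ) + 1)))⁻¹ := rfl
      have e4 : vtx a b A (-(m : ℤ)) = bwd a b A m := by
        cases m with
        | zero => rfl
        | succ m => rfl
      rw [e3, e4, Int.negSucc_eq]
      simp

theorem vtx_add (A : Set ℤ) (i j : ℤ) : vtx a b A (i + j) = vtx a b A i * vtx a b (tr i A) j := by
  have hl : ∀ j, letter a b (tr i A) j = letter a b A (i + j) := fun j => rfl
  induction j using Int.induction_on with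
  | zero => rw [add_zero, vtx_zero, mul_one]
  | succ j ih => rw [← add_assoc, vtx_succ, ih, vtx_succ, hl, mul_assoc]
  | pred j ih =>
    have h1 := vtx_succ a b A (i + (-(j : ℤ) - 1))
    have h2 := vtx_succ a b (tr i A) (-(j : ℤ) - 1)
    have e1 : i + (-(j : ℤ) - 1) + 1 = i + -(j : ℤ) := by ring
    have e2 : (-(j : ℤ) - 1) + 1 = -(j : ℤ) := by ring
    rw [e1] at h1
    rw [e2, hl] at h2
    rw [h1, h2, ← mul_assoc] at ih
    exact mul_right_cancel ih

/-- the exponent sum -/
noncomputable def deg : FreeGroup (Fin n) →* Multiplicative ℤ := FreeGroup.lift fun _ => Multiplicative.ofAdd (1 : ℤ)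

theorem deg_letter (A : Set ℤ) (j : ℤ) : deg (letter a b A j) = Multiplicative.ofAdd (1 : ℤ) := by
  unfold letter deg
  split_ifs <;> simp

theorem deg_vtx (A : Set ℤ) (j : ℤ) : deg (vtx a b A j) = Multiplicative.ofAdd j := by
  induction j using Int.induction_on with
  | zero => rw [vtx_zero, map_one, ofAdd_zero]
  | succ j ih => rw [vtx_succ, map_mul, ih, deg_letter, ← ofAdd_add]
  | pred j ih =>
    have h1 := vtx_succ a b A (-(j : ℤ) - 1)
    have e2 : (-(j : ℤ) - 1) + 1 = -(j : ℤ) := by ring
    rw [e2] at h1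
    rw [h1, map_mul, deg_letter] at ih
    rw [ofAdd_sub, ← ih]
    simp

theorem vtx_inj (A B : Set ℤ) {i j : ℤ} (h : vtx a b A i = vtx a b B j) : i = j := by
  have := congrArg deg h
  rw [deg_vtx, deg_vtx] at this
  exact Multiplicative.ofAdd.injective this

theorem abs_deg_le (g : FreeGroup (Fin n)) : |(Multiplicative.toAdd (deg g) : ℤ)| ≤ g.norm := by
  have key : ∀ L : List (Fin n × Bool), |(Multiplicative.toAdd (deg (FreeGroup.mk L)) : ℤ)| ≤ L.length := by
    intro L
    induction L with
    | nil => simp [deg]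
    | cons p L ih =>
      have e : (FreeGroup.mk (p :: L) : FreeGroup (Fin n)) = FreeGroup.mk [p] * FreeGroup.mk L := by
        rw [FreeGroup.mul_mk]; rfl
      rw [e, map_mul, toAdd_mul, List.length_cons]
      have h1 : |(Multiplicative.toAdd (deg (FreeGroup.mk [p])) : ℤ)| ≤ 1 := by
        obtain ⟨i, c⟩ := p
        cases c <;> simp [deg]
      have := abs_add_le (Multiplicative.toAdd (deg (FreeGroup.mk [p]))) (Multiplicative.toAdd (deg (FreeGroup.mk L)))
      push_cast
      linarith
  have := key g.toWord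
  rw [FreeGroup.mk_toWord] at this
  exact this

theorem norm_letter (A : Set ℤ) (j : ℤ) : (letter a b A j).norm = 1 := by
  unfold letter
  split_ifs <;> exact FreeGroup.norm_of _

theorem norm_vtx (A : Set ℤ) (j : ℤ) : ((vtx a b A j).norm : ℤ) ≤ |j| := by
  induction j using Int.induction_on with
  | zero => simp [vtx_zero]
  | succ j ih =>
    rw [vtx_succ]
    have h1 := FreeGroup.norm_mul_le (vtx a b A j) (letter a b A j)
    rw [norm_letter] at h1
    have h2 : |(j : ℤ) + 1| = j + 1 := abs_of_nonneg (by positivity)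
    have h3 : |(j : ℤ)| = j := abs_of_nonneg (by positivity)
    rw [h2]
    rw [h3] at ih
    have h4 : ((vtx a b A j * letter a b A j).norm : ℤ) ≤ ((vtx a b A j).norm + 1 : ℕ) := by exact_mod_cast h1
    push_cast at h4
    linarith
  | pred j ih =>
    have h1 := vtx_succ a b A (-(j : ℤ) - 1)
    have e2 : (-(j : ℤ) - 1) + 1 = -(j : ℤ) := by ring
    rw [e2] at h1
    have h2 : vtx a b A (-(j : ℤ) - 1) = vtx a b A (-(j : ℤ)) * (letter a b A (-(j : ℤ) - 1))⁻¹ := by
      rw [h1, mul_inv_cancel_right]
    rw [h2]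
    have h1 := FreeGroup.norm_mul_le (vtx a b A (-(j : ℤ))) (letter a b A (-(j : ℤ) - 1))⁻¹
    rw [FreeGroup.norm_inv_eq, norm_letter] at h1
    have h2 : |-(j : ℤ) - 1| = j + 1 := by
      rw [show -(j : ℤ) - 1 = -((j : ℤ) + 1) by ring, abs_neg]; exact abs_of_nonneg (by positivity)
    have h3 : |-(j : ℤ)| = j := by rw [abs_neg]; exact abs_of_nonneg (by positivity)
    rw [h2]
    rw [h3] at ih
    have h4 : ((vtx a b A (-(j : ℤ)) * (letter a b A (-(j : ℤ) - 1))⁻¹).norm : ℤ) ≤
      ((vtx a b A (-(j : ℤ))).norm + 1 : ℕ) := by exact_mod_cast h1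
    push_cast at h4
    linarith

theorem adj_vtx (A : Set ℤ) (j : ℤ) : (cayley n).Adj (vtx a b A j) (vtx a b A (j + 1)) := by
  rw [cayley, SimpleGraph.fromRel_adj]
  refine ⟨fun h => ?_, Or.inl ?_⟩
  · have := vtx_inj a b A A h
    omega
  · rw [vtx_succ]
    unfold letter
    split_ifs
    · exact ⟨b, rfl⟩
    · exact ⟨a, rfl⟩

/-- The bi-infinite path through `e` whose `j`-th edge is labelled `b` if `j ∈ A` and `a` if `j ∉ A`. -/
noncomputable def pathTree (A : Set ℤ) : Tree n where
  verts := Set.range (vtx a b A)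
  one_mem := ⟨0, vtx_zero a b A⟩
  infinite := Set.infinite_range_of_injective fun i j h => vtx_inj a b A A h
  connected := by
    rw [SimpleGraph.connected_iff_exists_forall_reachable]
    refine ⟨⟨vtx a b A 0, ⟨0, rfl⟩⟩, ?_⟩
    rintro ⟨_, j, rfl⟩
    have hadj : ∀ j : ℤ, ((cayley n).induce (Set.range (vtx a b A))).Adj ⟨vtx a b A j, ⟨j, rfl⟩⟩
        ⟨vtx a b A (j + 1), ⟨j + 1, rfl⟩⟩ := fun j => adj_vtx a b A j
    induction j using Int.induction_on with
    | zero => exact SimpleGraph.Reachable.refl _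
    | succ j ih => exact ih.trans (hadj j).reachable
    | pred j ih =>
      have h1 := hadj (-(j : ℤ) - 1)
      have e2 : (-(j : ℤ) - 1) + 1 = -(j : ℤ) := by ring
      have e3 : (⟨vtx a b A (-(j : ℤ) - 1 + 1), ⟨-(j : ℤ) - 1 + 1, rfl⟩⟩ : Set.range (vtx a b A)) =
          ⟨vtx a b A (-(j : ℤ)), ⟨-(j : ℤ), rfl⟩⟩ := by
        apply Subtype.ext
        simp only [e2]
      rw [e3] at h1
      exact ih.trans h1.symm.reachable

theorem mem_leaf_pathTree (A : Set ℤ) (T : Tree n) : T ∈ leaf (pathTree a b A) ↔ ∃ j, T = pathTree a b (tr j A) := by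
  have key : ∀ j, (fun h => (vtx a b A j)⁻¹ * h) '' Set.range (vtx a b A) = Set.range (vtx a b (tr j A)) := by
    intro j
    ext g
    constructor
    · rintro ⟨_, ⟨i, rfl⟩, rfl⟩
      refine ⟨i - j, ?_⟩
      have := vtx_add a b A j (i - j)
      rw [show j + (i - j) = i by ring] at this
      simp only
      rw [this, inv_mul_cancel_left]
    · rintro ⟨i, rfl⟩
      refine ⟨vtx a b A (j + i), ⟨_, rfl⟩, ?_⟩
      simp only
      rw [vtx_add, inv_mul_cancel_left]
  constructor
  · rintro ⟨_, ⟨j, rfl⟩, h⟩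
    refine ⟨j, ?_⟩
    apply Tree.ext
    rw [h]
    exact key j
  · rintro ⟨j, rfl⟩
    exact ⟨vtx a b A j, ⟨j, rfl⟩, (key j).symm⟩

variable {a b}

theorem mem_of_sameBall (hab : a ≠ b) {B C : Set ℤ} {r : ℕ} (h : SameBall r (pathTree a b B) (pathTree a b C)) {i : ℤ}
    (hi : |i| + 1 ≤ r) : i ∈ B ↔ i ∈ C := by
  have key : ∀ j : ℤ, |j| ≤ r → vtx a b B j = vtx a b C j := by
    intro j hj
    have h1 : vtx a b B j ∈ (pathTree a b C).verts := by
      refine (h _ ?_).mp ⟨j, rfl⟩
      have := norm_vtx a b B j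
      omega
    obtain ⟨j', hj'⟩ := h1
    have := vtx_inj a b C B hj'
    rw [this] at hj'
    exact hj'.symm
  have h1 := key i (by omega)
  have h2 := key (i + 1) (by
    have := abs_add_le i 1
    rw [abs_one] at this
    omega)
  rw [vtx_succ, vtx_succ, h1] at h2
  have h3 := mul_left_cancel h2
  unfold letter at h3
  by_cases hB : i ∈ B <;> by_cases hC : i ∈ C
  · simp [hB, hC]
  · rw [if_pos hB, if_neg hC] at h3
    exact absurd (FreeGroup.of_injective h3).symm hab
  · rw [if_neg hB, if_pos hC] at h3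
    exact absurd (FreeGroup.of_injective h3) hab
  · simp [hB, hC]

theorem sameBall_of_mem {B C : Set ℤ} {r : ℕ} (h : ∀ i : ℤ, |i| ≤ r → (i ∈ B ↔ i ∈ C)) :
    SameBall r (pathTree a b B) (pathTree a b C) := by
  have hl : ∀ i : ℤ, |i| ≤ r → letter a b B i = letter a b C i := by
    intro i hi
    unfold letter
    by_cases hB : i ∈ B
    · rw [if_pos hB, if_pos ((h i hi).mp hB)]
    · rw [if_neg hB, if_neg fun hC => hB ((h i hi).mpr hC)]
  have key : ∀ j : ℤ, |j| ≤ r → vtx a b B j = vtx a b C j := by
    intro j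
    induction j using Int.induction_on with
    | zero => intro _; rw [vtx_zero, vtx_zero]
    | succ j ih =>
      intro hj
      have h1 : |(j : ℤ) + 1| = j + 1 := abs_of_nonneg (by positivity)
      have h2 : |(j : ℤ)| = j := abs_of_nonneg (by positivity)
      rw [h1] at hj
      rw [vtx_succ, vtx_succ, ih (by omega), hl j (by omega)]
    | pred j ih =>
      intro hj
      have h1 : |-(j : ℤ) - 1| = j + 1 := by
        rw [show -(j : ℤ) - 1 = -((j : ℤ) + 1) by ring, abs_neg]; exact abs_of_nonneg (by positivity)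
      have h2 : |-(j : ℤ)| = j := by rw [abs_neg]; exact abs_of_nonneg (by positivity)
      have e2 : (-(j : ℤ) - 1) + 1 = -(j : ℤ) := by ring
      have g1 := vtx_succ a b B (-(j : ℤ) - 1)
      have g2 := vtx_succ a b C (-(j : ℤ) - 1)
      rw [e2] at g1 g2
      have g3 := ih (by omega)
      rw [g1, g2, hl _ hj] at g3
      exact mul_right_cancel g3
  have half : ∀ (B C : Set ℤ), (∀ j : ℤ, |j| ≤ r → vtx a b B j = vtx a b C j) → ∀ g : FreeGroup (Fin n),
      g.norm ≤ r → g ∈ (pathTree a b B).verts → g ∈ (pathTree a b C).verts := by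
    rintro B C hk _ hg ⟨j, rfl⟩
    have h1 := abs_deg_le (vtx a b B j)
    rw [deg_vtx, toAdd_ofAdd] at h1
    exact ⟨j, (hk j (by omega)).symm⟩
  exact fun g hg => ⟨half B C key g hg, half C B (fun j hj => (key j hj).symm) g hg⟩

theorem pathTree_inj (hab : a ≠ b) {B C : Set ℤ} (h : pathTree a b B = pathTree a b C) : B = C := by
  ext i
  refine mem_of_sameBall (r := i.natAbs + 1) hab ?_ (by push_cast; omega)
  rw [h]
  exact fun g _ => Iff.rfl

/-- orbit closures of bi-infinite paths -/
theorem closure_pathTree (hab : a ≠ b) (A : Set ℤ) : closureX (leaf (pathTree a b A)) = pathTree a b '' CL A := by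
  ext T
  constructor
  · intro hT
    have h1 : ∀ r : ℕ, ∃ j : ℤ, SameBall r T (pathTree a b (tr j A)) := by
      intro r
      obtain ⟨T', h1, h2⟩ := hT r
      obtain ⟨j, rfl⟩ := (mem_leaf_pathTree a b A T').mp h1
      exact ⟨j, h2⟩
    choose j hj using h1
    set Z : Set ℤ := {i | j (i.natAbs + 1) + i ∈ A} with hZ
    have hwin : ∀ (r : ℕ) (i : ℤ), |i| ≤ r → (i ∈ Z ↔ j (r + 1) + i ∈ A) := by
      intro r i hi
      have h1 : SameBall (i.natAbs + 1) (pathTree a b (tr (j (i.natAbs + 1)) A)) (pathTree a b (tr (j (r + 1)) A)) :=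
        (hj _).symm.trans ((hj (r + 1)).mono (by have := Int.natCast_natAbs i; omega))
      exact mem_of_sameBall hab h1 (i := i) (by push_cast; omega)
    refine ⟨Z, fun r => ⟨j (r + 1), hwin r⟩, ?_⟩
    refine eq_of_sameBall fun r => ?_
    refine (sameBall_of_mem (C := tr (j (r + 1)) A) (hwin r)).trans ((hj (r + 1)).mono (Nat.le_succ r)).symm
  · rintro ⟨Z, hZ, rfl⟩ r
    obtain ⟨j, hj⟩ := hZ r
    exact ⟨pathTree a b (tr j A), (mem_leaf_pathTree a b A _).mpr ⟨j, rfl⟩, sameBall_of_mem hj⟩

theorem closure_tr (hab : a ≠ b) (A : Set ℤ) (j : ℤ) :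
    closureX (leaf (pathTree a b (tr j A))) = closureX (leaf (pathTree a b A)) := by
  rw [closure_pathTree hab, closure_pathTree hab, CL_tr]

theorem mem_closure_spread (hab : a ≠ b) (k : ℕ) (T : Tree n) :
    T ∈ closureX (leaf (pathTree a b (spread k))) ↔ ∃ l ≤ k, ∃ j : ℤ, T = pathTree a b (tr j (spread l)) := by
  rw [closure_pathTree hab, CL_spread]
  constructor
  · rintro ⟨_, ⟨l, hl, j, rfl⟩, rfl⟩
    exact ⟨l, hl, j, rfl⟩
  · rintro ⟨l, hl, j, rfl⟩
    exact ⟨_, ⟨l, hl, j, rfl⟩, rfl⟩

theorem not_mem_closure_spread (hab : a ≠ b) {k l : ℕ} (h : l < k) :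
    pathTree a b (spread k) ∉ closureX (leaf (pathTree a b (spread l))) := by
  rw [mem_closure_spread hab]
  rintro ⟨l', hl', j, hj⟩
  exact spread_ne_tr (lt_of_le_of_lt hl' h) j (pathTree_inj hab hj)

theorem self_mem_closure (T : Tree n) : T ∈ closureX (leaf T) := by
  intro r
  refine ⟨T, ⟨1, T.one_mem, by simp⟩, fun g _ => Iff.rfl⟩

/-- the path given by `spread k` is at level exactly `k` -/
theorem level_spread (hab : a ≠ b) (k : ℕ) : IsLevel k (closureX (leaf (pathTree a b (spread k)))) := by
  induction k using Nat.strong_induction_on with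
  | _ k ih =>
    cases k with
    | zero =>
      rw [isLevel_zero]
      intro T hT
      obtain ⟨l, hl, j, rfl⟩ := (mem_closure_spread hab 0 T).mp hT
      obtain rfl : l = 0 := by omega
      rw [closure_tr hab]
    | succ k =>
      rw [isLevel_succ]
      have hsub : ∀ T ∈ closureX (leaf (pathTree a b (spread (k + 1)))),
          closureX (leaf T) ≠ closureX (leaf (pathTree a b (spread (k + 1)))) →
          ∃ l ≤ k, ∃ j : ℤ, T = pathTree a b (tr j (spread l)) := by
        intro T hT hne
        obtain ⟨l, hl, j, rfl⟩ := (mem_closure_spread hab _ T).mp hT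
        refine ⟨l, ?_, j, rfl⟩
        by_contra hl'
        obtain rfl : l = k + 1 := by omega
        exact hne (closure_tr hab _ _)
      refine ⟨?_, ?_, ?_⟩
      · intro he
        have h1 : pathTree a b (spread (k + 1)) ∈ closureX {T | T ∈ closureX (leaf (pathTree a b (spread (k + 1)))) ∧
            closureX (leaf T) ≠ closureX (leaf (pathTree a b (spread (k + 1))))} := by
          rw [he]; exact self_mem_closure _
        have h2 : {T | T ∈ closureX (leaf (pathTree a b (spread (k + 1)))) ∧
            closureX (leaf T) ≠ closureX (leaf (pathTree a b (spread (k + 1))))} ⊆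
            closureX (leaf (pathTree a b (spread k))) := by
          rintro T ⟨hT, hne⟩
          exact (mem_closure_spread hab k T).mpr (hsub T hT hne)
        have h3 := closureX_mono h2 h1
        rw [closureX_idem] at h3
        exact not_mem_closure_spread hab (Nat.lt_succ_self k) h3
      · intro T hT hne
        obtain ⟨l, hl, j, rfl⟩ := hsub T hT hne
        refine ⟨⟨l, by omega⟩, ?_⟩
        rw [closure_tr hab]
        exact ih l (by omega)
      · refine ⟨pathTree a b (spread k), (mem_closure_spread hab _ _).mpr ⟨k, by omega, 0, by rw [tr_zero]⟩, ?_,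
          ih k (Nat.lt_succ_self k)⟩
        intro he
        apply not_mem_closure_spread hab (Nat.lt_succ_self k)
        rw [he]
        exact self_mem_closure _

end Pool.Agent.Q183.Lev
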