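import Mathlib
import Pool.Agent.Q183.Lev.Tree

set_option autoImplicit false

/-!
# A path at infinite level
-/

namespace Pool.Agent.Q183.Lev

open Finset

/-- The integers `-1, -2` and all sums `3 ^ N + ∑_{i ∈ S} 3 ^ i` with `S ⊆ {0, …, N - 1}` and `|S|` equal to the first
component of the pair coded by `N`. -/
def infSet : Set ℤ :=
  {m | m = -1 ∨ m = -2 ∨ ∃ (N : ℕ) (S : Finset ℕ), S ⊆ range N ∧ S.card = (Nat.unpair N).1 ∧
    m = 3 ^ N + ∑ i ∈ S, 3 ^ i}

theorem val_insert {N : ℕ} {S : Finset ℕ} (h : S ⊆ range N) : val (insert N S) = 3 ^ N + val S := by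
  rw [val, sum_insert (fun hN => by simpa using h hN), val]

theorem mem_infSet_of_nonneg {m : ℤ} (hm : 0 ≤ m) (h : m ∈ infSet) :
    ∃ (N : ℕ) (S : Finset ℕ), S ⊆ range N ∧ S.card = (Nat.unpair N).1 ∧ m = val (insert N S) := by
  rcases h with h | h | ⟨N, S, h1, h2, h3⟩
  · omega
  · omega
  · exact ⟨N, S, h1, h2, by rw [val_insert h1, h3, val]⟩

theorem spread_mem_CL_inf (k : ℕ) : spread k ∈ CL infSet := by
  cases k with
  | zero =>
    intro r
    refine ⟨-(r + 3 : ℤ), fun i hi => ?_⟩
    have h1 := abs_le.mp hi
    simp only [spread, Set.mem_empty_iff_false, false_iff]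
    rintro (h | h | ⟨N, S, _, _, h3⟩)
    · omega
    · omega
    · have h4 : (0 : ℤ) < 3 ^ N := by positivity
      have h5 : (0 : ℤ) ≤ ∑ i ∈ S, 3 ^ i := sum_nonneg fun _ _ => by positivity
      omega
  | succ l =>
    intro r
    obtain ⟨m, hm⟩ := exists_pow_gt (2 * (r : ℤ))
    set N := Nat.pair l m with hN
    have hmN : m ≤ N := Nat.right_le_pair l m
    have hlN : (Nat.unpair N).1 = l := by rw [hN, Nat.unpair_pair]
    have hbig : 2 * (r : ℤ) < 3 ^ N := lt_of_lt_of_le hm (pow_le_pow_right₀ (by norm_num) hmN)
    refine ⟨3 ^ N, fun i hi => ?_⟩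
    have hi2 : 2 * |i| < 3 ^ N := by linarith
    have hpos : 0 ≤ 3 ^ N + i := by
      have := (abs_le.mp hi).1
      have h0 := abs_nonneg i
      linarith
    have hval : val {N} = 3 ^ N := by rw [val, sum_singleton]
    constructor
    · rintro ⟨S, hS, hv⟩
      have h1 : S.filter (fun i => ¬ i < N) = (∅ : Finset ℕ).filter (fun i => ¬ i < N) := by
        refine high_eq ?_
        have : val S - val ∅ = i := by
          rw [hv]; simp [val]
        rw [this]; exact hi2
      refine Or.inr (Or.inr ⟨N, S, ?_, by rw [hlN, hS], by rw [hv]⟩)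
      intro x hx
      by_contra hx'
      rw [mem_range] at hx'
      have : x ∈ S.filter (fun i => ¬ i < N) := mem_filter.mpr ⟨hx, hx'⟩
      rw [h1] at this
      simp at this
    · intro h
      obtain ⟨N', S, h1, h2, h3⟩ := mem_infSet_of_nonneg hpos h
      have h4 : (insert N' S).filter (fun i => ¬ i < N) = ({N} : Finset ℕ).filter (fun i => ¬ i < N) := by
        refine high_eq ?_
        rw [← h3, hval]
        have : 3 ^ N + i - 3 ^ N = i := by ring
        rw [this]; exact hi2
      have h5 : ({N} : Finset ℕ).filter (fun i => ¬ i < N) = {N} := by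
        rw [filter_eq_self]
        intro x hx
        rw [mem_singleton] at hx
        omega
      rw [h5] at h4
      have h6 : N ∈ insert N' S := by
        have : N ∈ (insert N' S).filter (fun i => ¬ i < N) := by rw [h4]; exact mem_singleton_self N
        exact (mem_filter.mp this).1
      have h7 : N ≤ N' := by
        rcases mem_insert.mp h6 with h | h
        · omega
        · have := mem_range.mp (h1 h)
          omega
      have h8 : N' = N := by
        have : N' ∈ (insert N' S).filter (fun i => ¬ i < N) := mem_filter.mpr ⟨mem_insert_self _ _, by omega⟩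
        rw [h4] at this
        exact mem_singleton.mp this
      subst h8
      refine ⟨S, by rw [h2, hlN], ?_⟩
      rw [val_insert h1] at h3
      have : i = val S := by linarith
      exact this

/-- two neighbouring integers of `infSet` are `-2, -1` -/
theorem pair_inf {m : ℤ} (h : m ∈ infSet) (h' : m - 1 ∈ infSet) : m = -1 := by
  rcases lt_or_ge m 1 with hm | hm
  · -- `m ≤ 0`
    rcases h with h | h | ⟨N, S, _, _, h3⟩
    · exact h
    · subst h
      rcases h' with h' | h' | ⟨N, S, _, _, h3⟩
      · omega
      · omega
      · have h4 : (0 : ℤ) < 3 ^ N := by positivity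
        have h5 : (0 : ℤ) ≤ ∑ i ∈ S, 3 ^ i := sum_nonneg fun _ _ => by positivity
        omega
    · have h4 : (0 : ℤ) < 3 ^ N := by positivity
      have h5 : (0 : ℤ) ≤ ∑ i ∈ S, 3 ^ i := sum_nonneg fun _ _ => by positivity
      omega
  · exfalso
    obtain ⟨N, S, h1, h2, h3⟩ := mem_infSet_of_nonneg (by omega) h
    obtain ⟨N', S', g1, g2, g3⟩ := mem_infSet_of_nonneg (by omega) h'
    have h4 : (insert N S).filter (fun i => ¬ i < 1) = (insert N' S').filter (fun i => ¬ i < 1) := by
      refine high_eq ?_
      rw [← h3, ← g3]
      have : m - (m - 1) = 1 := by ring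
      rw [this]; norm_num
    have hNN : N = N' := by
      rcases Nat.eq_zero_or_pos N with hN | hN
      · -- `m = 1`, `m - 1 = 0`
        subst hN
        have : S = ∅ := by simpa using h1
        subst this
        rw [val_insert h1] at h3
        simp [val] at h3
        rw [val_insert g1] at g3
        have h5 : (0 : ℤ) < 3 ^ N' := by positivity
        have h6 := val_nonneg S'
        omega
      · have a1 : N ∈ (insert N' S').filter (fun i => ¬ i < 1) := by
          rw [← h4]; exact mem_filter.mpr ⟨mem_insert_self _ _, by omega⟩
        have a2 : N ≤ N' := by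
          rcases mem_insert.mp (mem_filter.mp a1).1 with h | h
          · omega
          · have := mem_range.mp (g1 h)
            omega
        have a3 : N' ∈ (insert N S).filter (fun i => ¬ i < 1) := by
          rw [h4]; exact mem_filter.mpr ⟨mem_insert_self _ _, by omega⟩
        rcases mem_insert.mp (mem_filter.mp a3).1 with h | h
        · omega
        · have := mem_range.mp (h1 h)
          omega
    subst hNN
    have c1 : (insert N S).card = (insert N S').card := by
      rw [card_insert_of_notMem (fun h => by simpa using h1 h), card_insert_of_notMem (fun h => by simpa using g1 h),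
        h2, g2]
    have c2 := card_split (insert N S) 1
    have c3 := card_split (insert N S') 1
    rw [h4] at c2
    have c4 : ((insert N S).filter (· < 1)).card = ((insert N S').filter (· < 1)).card := by omega
    have c5 : (insert N S).filter (· < 1) = (insert N S').filter (· < 1) := by
      have hs : ∀ R : Finset ℕ, R.filter (· < 1) = ∅ ∨ R.filter (· < 1) = {0} := by
        intro R
        by_cases h0 : 0 ∈ R
        · right
          ext x
          rw [mem_filter, mem_singleton]
          exact ⟨fun h => by omega, fun h => by subst h; exact ⟨h0, by norm_num⟩⟩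
        · left
          rw [filter_eq_empty_iff]
          intro x hx hx'
          have : x = 0 := by omega
          exact h0 (this ▸ hx)
      rcases hs (insert N S) with e | e <;> rcases hs (insert N S') with e' | e' <;> rw [e, e'] at c4 ⊢ <;>
        simp at c4
    have v1 := val_split (insert N S) 1
    have v2 := val_split (insert N S') 1
    rw [h4, c5, ← v2] at v1
    rw [← h3, ← g3] at v1
    omega

variable {n : ℕ} {a b : Fin n}

/-- The bi-infinite path given by `infSet` is at infinite level; the leaves which are not dense in its closure do not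
accumulate on all of it, and every finite level occurs among them. -/
theorem level_inf (hab : a ≠ b) :
    (∀ k, ¬ IsLevel k (closureX (leaf (pathTree a b infSet)))) ∧
    closureX {T | T ∈ closureX (leaf (pathTree a b infSet)) ∧
      closureX (leaf T) ≠ closureX (leaf (pathTree a b infSet))} ≠ closureX (leaf (pathTree a b infSet)) ∧
    ∀ k, ∃ T ∈ closureX (leaf (pathTree a b infSet)),
      closureX (leaf T) ≠ closureX (leaf (pathTree a b infSet)) ∧ IsLevel k (closureX (leaf T)) := by
  have hmem : ∀ k, pathTree a b (spread k) ∈ closureX (leaf (pathTree a b infSet)) := by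
    intro k
    rw [closure_pathTree hab]
    exact ⟨_, spread_mem_CL_inf k, rfl⟩
  have hne : ∀ k, closureX (leaf (pathTree a b (spread k))) ≠ closureX (leaf (pathTree a b infSet)) := by
    intro k he
    apply not_mem_closure_spread hab (Nat.lt_succ_self k)
    rw [he]
    exact hmem (k + 1)
  refine ⟨?_, ?_, ?_⟩
  · intro k hk
    cases k with
    | zero =>
      rw [isLevel_zero] at hk
      exact hne 0 (hk _ (hmem 0))
    | succ k =>
      rw [isLevel_succ] at hk
      obtain ⟨j, hj⟩ := hk.2.1 _ (hmem (k + 1)) (hne (k + 1))
      have := level_unique (k + 1) j _ (level_spread hab (k + 1)) hj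
      have := j.2
      omega
  · intro he
    have h1 : pathTree a b infSet ∈ closureX {T | T ∈ closureX (leaf (pathTree a b infSet)) ∧
      closureX (leaf T) ≠ closureX (leaf (pathTree a b infSet))} := by
      rw [he]; exact self_mem_closure _
    obtain ⟨T, ⟨hT, hneT⟩, hball⟩ := h1 3
    rw [closure_pathTree hab] at hT
    obtain ⟨Z, hZ, rfl⟩ := hT
    apply hneT
    have e1 : (-1 : ℤ) ∈ Z := (mem_of_sameBall hab hball (i := -1) (by norm_num)).mp (Or.inl rfl)
    have e2 : (-2 : ℤ) ∈ Z := (mem_of_sameBall hab hball (i := -2) (by norm_num)).mp (Or.inr (Or.inl rfl))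
    have : Z = infSet := by
      ext i
      obtain ⟨j, hj⟩ := hZ (i.natAbs + 2)
      have f1 := (hj (-1) (by push_cast; have := abs_nonneg i; rw [abs_neg, abs_one]; omega)).mp e1
      have f2 := (hj (-2) (by push_cast; have := abs_nonneg i; rw [abs_neg, abs_two]; omega)).mp e2
      have f3 := pair_inf f1 (by convert f2 using 1; ring)
      have f4 : j = 0 := by omega
      rw [hj i (by push_cast; omega), f4, zero_add]
    rw [this]
  · intro k
    exact ⟨_, hmem k, hne k, level_spread hab k⟩

end Pool.Agent.Q183.Lev
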